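import Mathlib
import Pool.Agent.Helper934.PrMain

/-!
The normalised volume of the projection of the unit ball of `ℓ_p^n` onto a fixed subspace is
nondecreasing in `p`.
-/

open MeasureTheory Set

namespace Pool.Agent.Results.MP_05aced_gt.Monotone

/-- Euclidean space of dimension `m`. -/
abbrev Eu (m : ℕ) := EuclideanSpace ℝ (Fin m)

/-- Linear subspaces of Euclidean space. -/
abbrev Sub (n : ℕ) := Submodule ℝ (Eu n)

/-- The closed unit ball of the `ℓ_p` norm on `ℝ^m`, as a subset of Euclidean space. -/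
def lpBall (m : ℕ) (p : ℝ) : Set (Eu m) := {x | ∑ i, |x i| ^ p ≤ 1}

/-- The orthogonal projection of the `ℓ_p` ball of `ℝ^n` onto the subspace `H`. -/
def projBall {n : ℕ} (H : Sub n) (p : ℝ) : Set H := H.orthogonalProjectionOnto '' lpBall n p

/-- Lebesgue measure (of dimension `dim H`) of a subset of the Euclidean space `H`. -/
noncomputable def volH {n : ℕ} (H : Sub n) (S : Set H) : ℝ := (volume S).toReal

/-- Lebesgue measure of the closed unit ball of the `ℓ_p` norm on `ℝ^m`. -/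
noncomputable def volBall (m : ℕ) (p : ℝ) : ℝ := (volume (lpBall m p)).toReal

/-- The dimension of a subspace. -/
noncomputable def dimH {n : ℕ} (H : Sub n) : ℕ := Module.finrank ℝ H

/-- `R_H(p) = vol_k (Proj_H (B_p^n)) / vol_k (B_p^k)` where `k` is the dimension of `H`. -/
noncomputable def ratio {n : ℕ} (H : Sub n) (p : ℝ) : ℝ :=
  volH H (projBall H p) / volBall (dimH H) p

lemma volume_lpBall (m : ℕ) (p : ℝ) :
    volume (lpBall m p) = volume {x : Fin m → ℝ | ∑ i, |x i| ^ p ≤ 1} := by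
  have h := (EuclideanSpace.volume_preserving_symm_measurableEquiv_toLp (Fin m)).measure_preimage_equiv
    {x : Fin m → ℝ | ∑ i, |x i| ^ p ≤ 1}
  rw [← h]
  rfl

lemma bounded_lpBall (m : ℕ) {p : ℝ} (hp : 1 ≤ p) : Bornology.IsBounded (lpBall m p) := by
  rw [isBounded_iff_forall_norm_le]
  refine ⟨√m, ?_⟩
  intro x hx
  have h1 : ∀ i, |x i| ≤ 1 := by
    intro i
    by_contra h
    push Not at h
    have h2 : |x i| ^ p ≤ ∑ j, |x j| ^ p :=
      Finset.single_le_sum (f := fun j => |x j| ^ p)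
        (fun j _ => Real.rpow_nonneg (abs_nonneg _) _) (Finset.mem_univ i)
    have h3 : 1 < |x i| ^ p := Real.one_lt_rpow h (by linarith)
    have h4 : ∑ j, |x j| ^ p ≤ 1 := hx
    linarith
  rw [EuclideanSpace.norm_eq]
  apply Real.sqrt_le_sqrt
  calc ∑ i, ‖x i‖ ^ 2 ≤ ∑ _i : Fin m, (1:ℝ) := by
        apply Finset.sum_le_sum
        intro i _
        rw [Real.norm_eq_abs]
        have := abs_nonneg (x i)
        nlinarith [h1 i]
    _ = m := by simp

/-- The volumes in the definition of the ratio are finite, and the denominator is positive. -/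
theorem sanity {n : ℕ} (H : Sub n) {p : ℝ} (hp : 1 ≤ p) :
    volume (projBall H p) < ⊤ ∧
      0 < volume (lpBall (Module.finrank ℝ H) p) ∧ volume (lpBall (Module.finrank ℝ H) p) < ⊤ := by
  refine ⟨?_, ?_, ?_⟩
  · apply Bornology.IsBounded.measure_lt_top
    exact (H.orthogonalProjectionOnto.lipschitz.isBounded_image (bounded_lpBall n hp))
  · obtain ⟨c, hc, -, hcL⟩ := Pool.Agent.Helper934.Pr.ex_norm p hp
    have h := Pool.Agent.Helper934.Pr.norm_id (Module.finrank ℝ H) c p hc hp hcL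
    rw [volume_lpBall, pos_iff_ne_zero]
    intro h0
    rw [h0, mul_zero] at h
    exact zero_ne_one h
  · exact (bounded_lpBall _ hp).measure_lt_top

/-- The map `p ↦ R_H(p)` is nondecreasing on `[1, ∞)`, for all `n` and all subspaces `H` of `ℝ^n`. -/
theorem result (n : ℕ) (H : Sub n) : MonotoneOn (ratio H) (Ici 1) := by
  intro p hp q hq hpq
  have hp1 : (1:ℝ) ≤ p := hp
  have hq1 : (1:ℝ) ≤ q := hq
  let T : (Fin n → ℝ) →ₗ[ℝ] H := (H.orthogonalProjectionOnto : EuclideanSpace ℝ (Fin n) →ₗ[ℝ] H) ∘ₗ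
    ((WithLp.linearEquiv 2 ℝ (Fin n → ℝ)).symm : (Fin n → ℝ) →ₗ[ℝ] EuclideanSpace ℝ (Fin n))
  have himg : ∀ s : ℝ, T '' {x | ∑ i, |x i| ^ s ≤ 1} = H.orthogonalProjectionOnto '' lpBall n s := by
    intro s
    ext y
    constructor
    · rintro ⟨x, hx, rfl⟩
      exact ⟨(WithLp.linearEquiv 2 ℝ (Fin n → ℝ)).symm x, hx, rfl⟩
    · rintro ⟨x, hx, rfl⟩
      exact ⟨(WithLp.linearEquiv 2 ℝ (Fin n → ℝ)) x, hx, rfl⟩
  have h := Pool.Agent.Helper934.Pr.main_ineq (volume : Measure H) T p q hp1 hpq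
  rw [himg, himg, ← volume_lpBall, ← volume_lpBall] at h
  change volume (projBall H p) / _ ≤ volume (projBall H q) / _ at h
  obtain ⟨a1, a2, a3⟩ := sanity H hp1
  obtain ⟨b1, b2, b3⟩ := sanity H hq1
  unfold ratio volH volBall dimH
  rw [← ENNReal.toReal_div, ← ENNReal.toReal_div]
  exact ENNReal.toReal_mono (ENNReal.div_ne_top b1.ne b2.ne') h

end Pool.Agent.Results.MP_05aced_gt.Monotone
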